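import Pool.Agent.Helper35_XQ.StmtAH

/-!
Squad XQ (MP_5b0138_an), module AH_BMN (helper44): assembly of the blocks and the Laplace transform.
-/

namespace Pool.Agent.XQ.AH.H44

open MeasureTheory Complex Filter Topology Pool.Agent.H62T Pool.Agent.H60K Pool.Agent.H38KL
open scoped ENNReal NNReal

theorem bmn (hcla : AH.ClaStatement) (hmbd : AH.MbdStatement) (habs : AH.AbsStatement) :
    AH.BmnStatement := by
  intro α d hα1 hα2 hd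
  obtain ⟨ρ0, hρ0, H⟩ := hcla α d hα1 hα2 hd
  refine ⟨ρ0, hρ0, fun ρ hρ hρ' => ?_⟩
  obtain ⟨e, δ0, he, hδ0, H1⟩ := H ρ hρ hρ'
  refine ⟨e / 2, δ0, by positivity, hδ0, fun δ hδ hδ' => ?_⟩
  have H2 := H1 δ hδ hδ'
  obtain ⟨m1, m2, l0, C, p, hl0, b1, b2⟩ := hmbd α d δ ρ hα1 hα2 hd hδ hρ
  obtain ⟨c0, hc0, H3⟩ := habs (VM (us α 0) (hh d) {0, 1} {2})
    (fun a t => TT0 α d (d - 2 * δ) δ ρ a t) (2 * d + e) δ l0 C (e / 2) p (by positivity) hδ hl0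
    (by positivity) m1 m2 b1 b2 H2
  refine ⟨c0, hc0, fun c hc hc' => ?_⟩
  obtain ⟨C', κ0, hκ0, H4⟩ := H3 c hc hc'
  refine ⟨C', κ0, hκ0, fun κ hκ => ?_⟩
  have h5 := H4 κ hκ
  have e1 : 2 * d + e - e / 2 = 2 * d + e / 2 := by ring
  rw [e1] at h5
  exact h5

end Pool.Agent.XQ.AH.H44
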