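import Pool.Agent.Helper35_XQ.StmtAH
import Pool.Agent.Helper15_AEU3.Cvt

/-!
Squad XQ (MP_5b0138_an), module AH_CVT (helper44): interchange of the Laplace transform and the
integral over the half window.
-/

namespace Pool.Agent.XQ.AH.H44

open MeasureTheory Complex Filter Topology Pool.Agent.H62T Pool.Agent.H60K Pool.Agent.H38KL
open Pool.Agent.H60K.H15
open scoped ENNReal NNReal

/-- the integrand -/
noncomputable def FF (α d δ a κ : ℝ) (O E : Finset (Fin 3)) (t : ℝ) (p : ℂ × ℂ) : ℝ :=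
  Real.exp (-(κ ^ 2 * t)) * ((G a (p.1 - p.2) - G a (p.1 - (starRingEnd ℂ) p.2)) *
    (ch (d - 2 * δ) p.2 - ch (d - 2 * δ) p.1) *
    kME (us α 0) (hh d) O E t (rf (us α 0) (hh d) 0 p.2) p.1)

theorem k_meas (u : Fin 3 → ℂ) (h : Fin 3 → ℝ) (O E : Finset (Fin 3)) :
    Measurable fun z : ℝ × ℂ × ℂ => kME u h O E z.1 (rf u h 0 z.2.2) z.2.1 := by
  have h5 : Measurable fun z : ℝ × ℂ × ℂ => (z.1, rf u h 0 z.2.2, z.2.1) := by
    refine measurable_fst.prodMk (Measurable.prodMk ?_ ?_)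
    · exact (rf_cont _ _ _).measurable.comp (by fun_prop)
    · fun_prop
  have h6 := kME_meas u h O E
  have h7 := Measurable.comp h6 h5
  exact h7

theorem FF_meas (α d δ a κ : ℝ) (O E : Finset (Fin 3)) :
    Measurable (Function.uncurry (FF α d δ a κ O E)) := by
  have e : Function.uncurry (FF α d δ a κ O E) = fun z : ℝ × ℂ × ℂ =>
      Real.exp (-(κ ^ 2 * z.1)) * ((G a (z.2.1 - z.2.2) - G a (z.2.1 - (starRingEnd ℂ) z.2.2)) *
        (ch (d - 2 * δ) z.2.2 - ch (d - 2 * δ) z.2.1) *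
        kME (us α 0) (hh d) O E z.1 (rf (us α 0) (hh d) 0 z.2.2) z.2.1) := rfl
  rw [e]
  have h1 : Measurable fun z : ℝ × ℂ × ℂ => Real.exp (-(κ ^ 2 * z.1)) := by fun_prop
  have h2 : Measurable fun z : ℝ × ℂ × ℂ => G a (z.2.1 - z.2.2) :=
    (H41.G_cont _).measurable.comp (by fun_prop)
  have h2' : Measurable fun z : ℝ × ℂ × ℂ => G a (z.2.1 - (starRingEnd ℂ) z.2.2) := by
    refine (H41.G_cont _).measurable.comp ?_
    have h5 : Continuous fun z : ℝ × ℂ × ℂ => z.2.1 - (starRingEnd ℂ) z.2.2 :=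
      (continuous_fst.comp continuous_snd).sub
        (Complex.continuous_conj.comp (continuous_snd.comp continuous_snd))
    exact h5.measurable
  have h3 : Measurable fun z : ℝ × ℂ × ℂ => ch (d - 2 * δ) z.2.2 - ch (d - 2 * δ) z.2.1 :=
    ((ch_meas _).comp (by fun_prop)).sub ((ch_meas _).comp (by fun_prop))
  have h4 : Measurable fun z : ℝ × ℂ × ℂ =>
      kME (us α 0) (hh d) O E z.1 (rf (us α 0) (hh d) 0 z.2.2) z.2.1 :=
    k_meas (us α 0) (hh d) O E
  have h6 : Measurable fun z : ℝ × ℂ × ℂ =>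
      G a (z.2.1 - z.2.2) - G a (z.2.1 - (starRingEnd ℂ) z.2.2) := h2.sub h2'
  exact Measurable.mul h1 (Measurable.mul (Measurable.mul h6 h3) h4)

theorem G_top {a : ℝ} (ha : 0 < a) (z : ℂ) : G a z ≤ (4 * Real.pi * a)⁻¹ := by
  unfold G
  rw [div_eq_mul_inv]
  refine mul_le_of_le_one_left (by positivity) ?_
  apply Real.exp_le_one_iff.2
  have : 0 ≤ ‖z‖ ^ 2 / (4 * a) := by positivity
  have e : -(‖z‖ ^ 2) / (4 * a) = -(‖z‖ ^ 2 / (4 * a)) := by ring
  rw [e]
  linarith

theorem FF_bound {α d δ a κ ζ1 ζ2 : ℝ} (O E : Finset (Fin 3)) (hδ : 0 < δ) (ha : 0 < a)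
    {t : ℝ} (ht : 0 < t) {p : ℂ × ℂ}
    (hp : p ∈ Rw (d - 2 * δ) δ ζ1 ζ2 ×ˢ Rw (d - 2 * δ) δ ζ1 ζ2) :
    ‖FF α d δ a κ O E t p‖ ≤ Real.exp (-(κ ^ 2 * t)) *
      ((4 * Real.pi * a)⁻¹ * ((O.powerset.card : ℝ) * (1 / (Real.pi * (2 * δ) ^ 2)))) := by
  unfold FF
  rw [Real.norm_eq_abs, abs_mul, abs_of_pos (Real.exp_pos _)]
  refine mul_le_mul_of_nonneg_left ?_ (Real.exp_pos _).le
  rw [abs_mul, abs_mul]
  have h1 : |G a (p.1 - p.2) - G a (p.1 - (starRingEnd ℂ) p.2)|
      * |ch (d - 2 * δ) p.2 - ch (d - 2 * δ) p.1| ≤ (4 * Real.pi * a)⁻¹ * 1 := by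
    refine mul_le_mul ?_ (ch_abs _ _ _) (abs_nonneg _) (by positivity)
    have g1 := G_top ha (p.1 - p.2)
    have g2 := G_top ha (p.1 - (starRingEnd ℂ) p.2)
    have g3 := H41.G_nonneg ha (p.1 - p.2)
    have g4 := H41.G_nonneg ha (p.1 - (starRingEnd ℂ) p.2)
    rw [abs_le]
    constructor
    · linarith
    · linarith
  rw [mul_one] at h1
  refine mul_le_mul h1 ?_ (abs_nonneg _) (by positivity)
  refine (kME_abs_le _ _ O E ht _ _).trans ?_
  exact mul_le_mul_of_nonneg_left (G_far ht (by positivity) (rf_far hδ hp.1 hp.2))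
    (Nat.cast_nonneg _)

theorem cvt_gen (O E : Finset (Fin 3)) (α d δ ζ c κ : ℝ) (hδ : 0 < δ) (hc : 0 < c)
    (hκ : 0 < κ) :
    (∫ t in Set.Ioi (c / κ), Real.exp (-(κ ^ 2 * t)) *
      ∫ x in Rw (d - 2 * δ) δ ζ 0, ∫ y in Rw (d - 2 * δ) δ ζ 0,
        (G (c / κ) (x - y) - G (c / κ) (x - (starRingEnd ℂ) y))
          * (ch (d - 2 * δ) y - ch (d - 2 * δ) x)
          * kME (us α 0) (hh d) O E (t - c / κ) (rf (us α 0) (hh d) 0 y) x)
      = Real.exp (-(κ * c)) * ∫ x in Rw (d - 2 * δ) δ ζ 0, ∫ y in Rw (d - 2 * δ) δ ζ 0,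
        (G (c / κ) (x - y) - G (c / κ) (x - (starRingEnd ℂ) y))
          * (ch (d - 2 * δ) y - ch (d - 2 * δ) x)
          * ∫ t in Set.Ioi (0 : ℝ), Real.exp (-(κ ^ 2 * t)) *
            kME (us α 0) (hh d) O E t (rf (us α 0) (hh d) 0 y) x := by
  have ha : 0 < c / κ := by positivity
  set a : ℝ := c / κ with had
  set S : Set ℂ := Rw (d - 2 * δ) δ ζ 0 with hS
  have hSm : MeasurableSet S := (Rw_open _ _ _ _).measurableSet
  have hSf : volume S < ⊤ := Rw_finite _ _ _ _
  have : IsFiniteMeasure (volume.restrict S) := ⟨by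
    rw [Measure.restrict_apply_univ]
    exact hSf⟩
  set F := FF α d δ a κ O E with hF
  set M : ℝ := (4 * Real.pi * a)⁻¹ *
    ((O.powerset.card : ℝ) * (1 / (Real.pi * (2 * δ) ^ 2))) with hM
  have hexp : IntegrableOn (fun t : ℝ => Real.exp (-(κ ^ 2 * t))) (Set.Ioi 0) := by
    have := integrableOn_exp_mul_Ioi (a := -(κ ^ 2)) (by
      have : 0 < κ ^ 2 := by positivity
      linarith) 0
    refine this.congr_fun (fun t _ => ?_) measurableSet_Ioi
    simp only
    congr 1
    ring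
  have hprod : (volume.restrict (Set.Ioi (0 : ℝ))).prod
      ((volume.restrict S).prod (volume.restrict S))
      = ((volume : Measure ℝ).prod ((volume : Measure ℂ).prod (volume : Measure ℂ))).restrict
        (Set.Ioi (0 : ℝ) ×ˢ (S ×ˢ S)) := by
    rw [Measure.prod_restrict, Measure.prod_restrict]
  have hint : Integrable (Function.uncurry F) ((volume.restrict (Set.Ioi (0 : ℝ))).prod
      ((volume.restrict S).prod (volume.restrict S))) := by
    have h1 : Integrable (fun z : ℝ × ℂ × ℂ => Real.exp (-(κ ^ 2 * z.1)) * M)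
        ((volume.restrict (Set.Ioi (0 : ℝ))).prod
          ((volume.restrict S).prod (volume.restrict S))) :=
      Integrable.mul_prod hexp (integrable_const M)
    refine h1.mono' (FF_meas α d δ a κ O E).aestronglyMeasurable ?_
    rw [hprod]
    filter_upwards [ae_restrict_mem (measurableSet_Ioi.prod (hSm.prod hSm))] with z hz
    exact FF_bound O E hδ ha hz.1 hz.2
  have hFt : ∀ t ∈ Set.Ioi (0 : ℝ), ∫ x in S, ∫ y in S, F t (x, y)
      = ∫ p, F t p ∂((volume.restrict S).prod (volume.restrict S)) := by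
    intro t ht
    rw [integral_prod]
    have h1 : Integrable (fun _ : ℂ × ℂ => Real.exp (-(κ ^ 2 * t)) * M)
        ((volume.restrict S).prod (volume.restrict S)) := integrable_const _
    refine h1.mono' ((FF_meas α d δ a κ O E).comp
      measurable_prodMk_left).aestronglyMeasurable ?_
    rw [Measure.prod_restrict]
    filter_upwards [ae_restrict_mem (hSm.prod hSm)] with z hz
    exact FF_bound O E hδ ha ht hz
  set T0 : ℝ → ℝ := fun t => ∫ x in S, ∫ y in S,
        (G a (x - y) - G a (x - (starRingEnd ℂ) y))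
          * (ch (d - 2 * δ) y - ch (d - 2 * δ) x)
          * kME (us α 0) (hh d) O E (t - a) (rf (us α 0) (hh d) 0 y) x with hT0
  have hshift : (∫ t in Set.Ioi a, Real.exp (-(κ ^ 2 * t)) * T0 t)
      = ∫ t in Set.Ioi (0 : ℝ), Real.exp (-(κ ^ 2 * (t + a))) * T0 (t + a) := by
    have hmp : MeasurePreserving (fun t : ℝ => t + a) volume volume :=
      measurePreserving_add_right volume a
    have hemb : MeasurableEmbedding (fun t : ℝ => t + a) :=
      (Homeomorph.addRight a).measurableEmbedding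
    have := hmp.setIntegral_preimage_emb hemb (fun t : ℝ => Real.exp (-(κ ^ 2 * t)) *
        T0 t) (Set.Ioi a)
    have hpre : (fun t : ℝ => t + a) ⁻¹' Set.Ioi a = Set.Ioi 0 := by
      ext t
      simp
    rw [hpre] at this
    exact this.symm
  rw [hshift]
  have hE : Real.exp (-(κ * c)) = Real.exp (-(κ ^ 2 * a)) := by
    congr 2
    rw [had]
    field_simp
  have hin : ∀ t ∈ Set.Ioi (0 : ℝ), Real.exp (-(κ ^ 2 * (t + a))) *
      T0 (t + a)
      = Real.exp (-(κ * c)) * ∫ p, F t p ∂((volume.restrict S).prod (volume.restrict S)) := by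
    intro t ht
    rw [← hFt t ht]
    rw [hT0]
    have e1 : Real.exp (-(κ ^ 2 * (t + a))) = Real.exp (-(κ * c)) * Real.exp (-(κ ^ 2 * t)) := by
      rw [hE, ← Real.exp_add]
      congr 1
      ring
    have e2 : t + a - a = t := by ring
    simp only
    rw [e1, e2, mul_assoc]
    congr 1
    rw [← integral_const_mul]
    refine integral_congr_ae (Eventually.of_forall fun x => ?_)
    simp only
    rw [← integral_const_mul]
    rfl
  rw [setIntegral_congr_fun measurableSet_Ioi hin, integral_const_mul]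
  congr 1
  have hint2 : Integrable (fun p : ℂ × ℂ => ∫ t in Set.Ioi (0 : ℝ), F t p)
      ((volume.restrict S).prod (volume.restrict S)) := hint.integral_prod_right
  rw [integral_integral_swap hint, integral_prod _ hint2]
  refine integral_congr_ae (Eventually.of_forall fun x => ?_)
  refine integral_congr_ae (Eventually.of_forall fun y => ?_)
  simp only
  rw [← integral_const_mul]
  refine integral_congr_ae (Eventually.of_forall fun t => ?_)
  rw [hF]
  unfold FF
  simp only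
  ring

theorem cvt : AH.CvtStatement := by
  intro α d δ ζ c κ _ hδ _ hc hκ
  exact cvt_gen {1} {2} α d δ ζ c κ hδ hc hκ

end Pool.Agent.XQ.AH.H44
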